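import Pool.Agent.H18.KC.Stmts

set_option autoImplicit false

open Finset

namespace Pool.Agent.H18.KC.UPB

open Pool.Agent.H18.KC

variable {α V : Type} [DecidableEq α] [NormedAddCommGroup V] [InnerProductSpace ℝ V]

theorem up_sub (ρ : Equiv.Perm α →* (V →ₗ[ℝ] V)) (x : ℕ → α) (j : ℕ) (v w : V) :
    Up ρ x j (v - w) = Up ρ x j v - Up ρ x j w := by
  unfold Up
  simp only [map_sub, Finset.sum_sub_distrib]
  abel

theorem up_norm (ρ : Equiv.Perm α →* (V →ₗ[ℝ] V)) (x : ℕ → α) (j : ℕ) (v : V)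
    (hρ : ∀ σ v, ‖ρ σ v‖ = ‖v‖) : ‖Up ρ x j v‖ ≤ ((j : ℝ) + 1) * ‖v‖ := by
  unfold Up
  calc ‖v + ∑ i ∈ range j, ρ (Equiv.swap (x i) (x j)) v‖
      ≤ ‖v‖ + ‖∑ i ∈ range j, ρ (Equiv.swap (x i) (x j)) v‖ := norm_add_le _ _
    _ ≤ ‖v‖ + ∑ i ∈ range j, ‖ρ (Equiv.swap (x i) (x j)) v‖ := by
        gcongr; exact norm_sum_le _ _
    _ = ((j : ℝ) + 1) * ‖v‖ := by
        simp only [hρ, sum_const, card_range, nsmul_eq_mul]; ring

theorem upb_thm : UPBStmt := by
  intro α V _ _ _ ρ x m k v w hρ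
  constructor
  · induction k with
    | zero => rfl
    | succ k ih =>
      show Up ρ x (m + k) (UpN ρ x m k (v - w)) = _
      rw [ih, up_sub]
      rfl
  · induction k with
    | zero => exact le_refl _
    | succ k ih =>
      show (Nat.factorial m : ℝ) * ‖Up ρ x (m + k) (UpN ρ x m k v)‖ ≤ _
      have h1 := up_norm ρ x (m + k) (UpN ρ x m k v) hρ
      have hf : (0 : ℝ) ≤ (Nat.factorial m : ℝ) := by positivity
      have e : ((Nat.factorial (m + (k + 1)) : ℕ) : ℝ) =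
          (((m + k : ℕ) : ℝ) + 1) * (Nat.factorial (m + k) : ℝ) := by
        rw [show m + (k + 1) = (m + k) + 1 by ring, Nat.factorial_succ]
        push_cast; ring
      rw [e]
      calc (Nat.factorial m : ℝ) * ‖Up ρ x (m + k) (UpN ρ x m k v)‖
          ≤ (Nat.factorial m : ℝ) * ((((m + k : ℕ) : ℝ) + 1) * ‖UpN ρ x m k v‖) :=
            mul_le_mul_of_nonneg_left h1 hf
        _ = (((m + k : ℕ) : ℝ) + 1) * ((Nat.factorial m : ℝ) * ‖UpN ρ x m k v‖) := by ring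
        _ ≤ (((m + k : ℕ) : ℝ) + 1) * (Nat.factorial (m + k) * ‖v‖) :=
            mul_le_mul_of_nonneg_left ih (by positivity)
        _ = _ := by ring

end Pool.Agent.H18.KC.UPB
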