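import Pool.Agent.H7.KC.NSY

set_option autoImplicit false

open Finset

namespace Pool.Agent.H18.KC.WBD

open Pool.Agent.H18.KC

variable {ι E : Type} [Fintype ι] [NormedAddCommGroup E] [InnerProductSpace ℝ E] {t Q : ℝ}

/-- the norm of `W` as a double sum -/
theorem norm_W (D : Dat ι E t Q) (h0 : E) (k m : ℕ) (hm : m + 1 ≤ k + 1) :
    ‖D.W h0 (k + 1) (m + 1)‖ ^ 2 =
      ∑ a : Fin (m + 1) → ι, ∑ J : Fin (k + 1 - (m + 1)) → ι,
        (D.P (m + 1) a (D.hs h0 (k + 1 - (m + 1)) J)) ^ 2 := by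
  rw [EuclideanSpace.real_norm_sq_eq, ← Fintype.sum_prod_type']
  refine Fintype.sum_equiv (NSY_split ι (k + 1) (m + 1) hm) _ _ (fun I => ?_)
  show (D.W h0 (k + 1) (m + 1) I) ^ 2 = _
  unfold Dat.W
  simp only [dif_pos hm]
  rfl

theorem wbd_thm : WBDStmt := by
  intro ι E _ _ _ t Q D h0 h k
  constructor
  · have h1 := norm_W D h0 k 0 (by omega)
    rw [show (0 : ℕ) + 1 = 1 from rfl] at h1
    rw [h1]
    unfold Dat.X
    refine Fintype.sum_equiv (Equiv.funUnique (Fin 1) ι) _ _ (fun a => ?_)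
    have ha : a = fun _ => (Equiv.funUnique (Fin 1) ι) a := by
      funext i
      rw [Subsingleton.elim i default]
      rfl
    show ∑ J : Fin k → ι, (D.P 1 a (D.hs h0 k J)) ^ 2 = _
    conv_lhs => rw [ha]
  · intro m hm
    rw [norm_W D h0 k m (by omega), Finset.sum_comm]
    have e0 : k + 1 - (m + 1) = k - m := by omega
    rw [e0]
    unfold Dat.V
    rw [Finset.mul_sum]
    exact Finset.sum_le_sum fun J _ => D.Pbd m _ (NSY_perp D h0 h _ _)

end Pool.Agent.H18.KC.WBD
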