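import Pool.Agent.H18.KC.Final
import Pool.Agent.H18.KC.UPB
import Pool.Agent.H18.KC.WBD
import Pool.Agent.H25.KC.GKB
import Pool.Agent.H33.KC.UIN
import Pool.Agent.H41.KC.SYM
import Pool.Agent.H49.KC.VSQ
import Pool.Agent.H62.KC.DBL
import Pool.Agent.H64.KC.BST
import Pool.Agent.H67.KC.PO1
import Pool.Agent.H67.KC.WRL
import Pool.Agent.H7.KC.NSY
import Pool.Agent.H72.KC.KDB
import Pool.Agent.H80.KC.PO2
import Pool.Agent.H88.KC.WIN
import Pool.Agent.H96.KC.DEF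
import Pool.Agent.H96.KC.FRC
import Pool.Agent.H1.KC.POL

/-!
# Part C of the KLS proof, abstract form: all modules plugged in
-/

set_option autoImplicit false

namespace Pool.Agent.H18.KC

theorem main_of2 (hUPB : UPBStmt) (hWBD : WBDStmt) : MAINStmt := by
  have hUIN : UINStmt := Pool.Agent.H33.KC.uin_thm
  have hPO1 : PO1Stmt := po1_thm
  have hPO2 : PO2Stmt := PO2_thm hUIN
  have hPOL : POLStmt := Pool.Agent.H1.KC.pol hUIN hPO1 hPO2
  have hSYM : SYMStmt := Pool.Agent.H41.KC.SYM.sym_thm hUIN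
  have hDBL : DBLStmt := Pool.Agent.H62.KC.DBL.dbl_thm hPOL hSYM hUPB
  have hKDB : KDBStmt := Pool.Agent.H72.KC.KDB.kdb_thm hDBL nsy_thm wrl_thm
    Pool.Agent.H88.KC.WIN.win_thm wsy_thm
  exact main_of Pool.Agent.H64.KC.BST.bst_thm vsq_thm Pool.Agent.H96.KC.DEF.def_thm hKDB hWBD
    gkb_thm Pool.Agent.H96.KC.FRC.frc_thm

/-- PART C, abstract form -/
theorem main : MAINStmt := main_of2 UPB.upb_thm WBD.wbd_thm

end Pool.Agent.H18.KC
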