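import Mathlib

/-!
# Part C of the KLS proof, abstract form: definitions

Plan: `/team-store/KLS_FULL_helper89.md` (sections 1-4), `/team-store/KLS_FULL_helper18.md`.
-/

set_option autoImplicit false

open Finset

namespace Pool.Agent.H18.KC

/-- The abstract data: `E = L²(μ)`, `e = 1`, `T i h = ∂_i u`, `B b i h = ∂_b ∂_i u` where
`-L u = h`, and `P m a h = ∫ p_m(a) h` with the Appell polynomials `p_m`. -/
structure Dat (ι E : Type) [Fintype ι] [NormedAddCommGroup E] [InnerProductSpace ℝ E]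
    (t Q : ℝ) where
  e : E
  T : ι → E →ₗ[ℝ] E
  B : ι → ι → E →ₗ[ℝ] E
  P : (m : ℕ) → (Fin m → ι) → E →ₗ[ℝ] ℝ
  ht : 0 < t
  hQ : 1 ≤ Q
  he : ‖e‖ = 1
  symB : ∀ b i h, B b i h = B i b h
  boch : ∀ h, inner ℝ e h = 0 →
    (∑ b, ∑ i, ‖B b i h‖ ^ 2) + t * (∑ i, ‖T i h‖ ^ 2) ≤ ‖h‖ ^ 2
  dual : ∀ h g, inner ℝ e h = 0 → inner ℝ e g = 0 → ∀ i,
    inner ℝ (T i h) g = ∑ b, inner ℝ (B b i h) (T b g)
  symP : ∀ (m : ℕ) (σ : Equiv.Perm (Fin m)) (a : Fin m → ι) (h : E), P m (a ∘ σ) h = P m a h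
  Pone : ∀ i h, inner ℝ e h = 0 → inner ℝ e (T i h) = P 1 (fun _ => i) h
  Prel : ∀ (m : ℕ) (a : Fin (m + 2) → ι) (h : E), inner ℝ e h = 0 →
    P (m + 2) a h = ∑ s : Fin (m + 2), P (m + 1) (s.removeNth a)
      (T (a s) h - inner ℝ e (T (a s) h) • e)
  Pbd : ∀ (m : ℕ) (h : E), inner ℝ e h = 0 →
    ∑ a : Fin (m + 1) → ι, (P (m + 1) a h) ^ 2 ≤
      ((Nat.factorial (m + 1) : ℕ) : ℝ) ^ 2 * Q ^ m * ‖h‖ ^ 2

section dat

variable {ι E : Type} [Fintype ι] [NormedAddCommGroup E] [InnerProductSpace ℝ E] {t Q : ℝ}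

/-- the centred operator -/
noncomputable def Dat.A (D : Dat ι E t Q) (i : ι) : E →ₗ[ℝ] E :=
  D.T i - ((innerₛₗ ℝ D.e).comp (D.T i)).smulRight D.e

theorem Dat.A_apply (D : Dat ι E t Q) (i : ι) (h : E) :
    D.A i h = D.T i h - inner ℝ D.e (D.T i h) • D.e := rfl

theorem Dat.inner_e_A (D : Dat ι E t Q) (i : ι) (h : E) : inner ℝ D.e (D.A i h) = 0 := by
  rw [Dat.A_apply, inner_sub_right, inner_smul_right, real_inner_self_eq_norm_sq, D.he]
  ring

/-- the sequence `h_k = A^k h_0`, a tensor of order `k`, index `0` is the newest one -/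
noncomputable def Dat.hs (D : Dat ι E t Q) (h0 : E) : (k : ℕ) → (Fin k → ι) → E
  | 0, _ => h0
  | k + 1, I => D.A (I 0) (D.hs h0 k (Fin.tail I))

/-- `V_k = ‖h_k‖²` -/
noncomputable def Dat.V (D : Dat ι E t Q) (h0 : E) (k : ℕ) : ℝ :=
  ∑ I : Fin k → ι, ‖D.hs h0 k I‖ ^ 2

/-- `X_k = |P_1 h_k|²` -/
noncomputable def Dat.X (D : Dat ι E t Q) (h0 : E) (k : ℕ) : ℝ :=
  ∑ i : ι, ∑ I : Fin k → ι, (D.P 1 (fun _ => i) (D.hs h0 k I)) ^ 2

/-- `‖(1 - τ) h_k‖²`, `τ` the exchange of the positions `j` and `j + 1` -/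
noncomputable def Dat.R (D : Dat ι E t Q) (h0 : E) (k : ℕ) (j : ℕ) : ℝ :=
  if h : j + 1 < k then ∑ I : Fin k → ι,
    ‖D.hs h0 k I - D.hs h0 k (I ∘ Equiv.swap ⟨j, by omega⟩ ⟨j + 1, h⟩)‖ ^ 2
  else 0

/-- `W N m = P_m (h_{N-m})` as a tensor of order `N`, the first `m` positions are those of the
Appell polynomial -/
noncomputable def Dat.W (D : Dat ι E t Q) (h0 : E) (N m : ℕ) : EuclideanSpace ℝ (Fin N → ι) :=
  WithLp.toLp 2 (fun I => if hm : m ≤ N then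
    D.P m (fun i => I (Fin.castLE hm i)) (D.hs h0 (N - m) (fun j => I ⟨m + j, by omega⟩)) else 0)

end dat

/-- the permutation of the positions of a tensor: `(σ v)(I) = v (I ∘ σ)` -/
noncomputable def rho (ι : Type) [Fintype ι] (N : ℕ) :
    Equiv.Perm (Fin N) →* (EuclideanSpace ℝ (Fin N → ι) →ₗ[ℝ] EuclideanSpace ℝ (Fin N → ι)) where
  toFun σ :=
    { toFun := fun v => WithLp.toLp 2 (fun I => v (I ∘ σ))
      map_add' := fun v w => by ext I; simp
      map_smul' := fun c v => by ext I; simp }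
  map_one' := by ext v I; simp
  map_mul' := fun σ τ => by ext v I; simp [Function.comp_assoc]

theorem rho_apply (ι : Type) [Fintype ι] (N : ℕ) (σ : Equiv.Perm (Fin N))
    (v : EuclideanSpace ℝ (Fin N → ι)) (I : Fin N → ι) : rho ι N σ v I = v (I ∘ σ) := rfl

theorem norm_rho (ι : Type) [Fintype ι] (N : ℕ) (σ : Equiv.Perm (Fin N))
    (v : EuclideanSpace ℝ (Fin N → ι)) : ‖rho ι N σ v‖ = ‖v‖ := by
  rw [EuclideanSpace.norm_eq, EuclideanSpace.norm_eq]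
  congr 1
  exact Fintype.sum_equiv (Equiv.arrowCongr σ.symm (Equiv.refl ι)) _ _ (fun I => rfl)

/-- the raising operator: position `j` joins the positions `0, ..., j - 1` -/
noncomputable def Up {α V : Type} [DecidableEq α] [NormedAddCommGroup V] [InnerProductSpace ℝ V]
    (ρ : Equiv.Perm α →* (V →ₗ[ℝ] V)) (x : ℕ → α) (j : ℕ) (v : V) : V :=
  v + ∑ i ∈ range j, ρ (Equiv.swap (x i) (x j)) v

/-- iterated raising operator: the positions `p, ..., p + k - 1` join the positions `< p` -/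
noncomputable def UpN {α V : Type} [DecidableEq α] [NormedAddCommGroup V] [InnerProductSpace ℝ V]
    (ρ : Equiv.Perm α →* (V →ₗ[ℝ] V)) (x : ℕ → α) (p : ℕ) : ℕ → V → V
  | 0, v => v
  | k + 1, v => Up ρ x (p + k) (UpN ρ x p k v)

/-- `v` is invariant under the exchanges of the positions in `[a, b)` -/
def Inv {α V : Type} [DecidableEq α] [NormedAddCommGroup V] [InnerProductSpace ℝ V]
    (ρ : Equiv.Perm α →* (V →ₗ[ℝ] V)) (x : ℕ → α) (a b : ℕ) (v : V) : Prop :=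
  ∀ i j, a ≤ i → i < b → a ≤ j → j < b → ρ (Equiv.swap (x i) (x j)) v = v

/-- positions as elements of `Fin (k + 1)` -/
def pos (k : ℕ) (j : ℕ) : Fin (k + 1) := Fin.ofNat (k + 1) j

end Pool.Agent.H18.KC
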