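import Pool.Agent.H18.KC.Stmts

/-!
# Part C of the KLS proof, abstract form: assembly
-/

set_option autoImplicit false

open Finset

namespace Pool.Agent.H18.KC

/-- assembly of the abstract Part C -/
theorem main_of (hBST : BSTStmt) (hVSQ : VSQStmt) (hDEF : DEFStmt) (hKDB : KDBStmt)
    (hWBD : WBDStmt) (hGKB : GKBStmt) (hFRC : FRCStmt) : MAINStmt := by
  intro ι E _ _ _ t Q D h hh
  obtain ⟨L, hL0, hL, hLs⟩ := hBST ι E t Q D
  have hQ := D.hQ
  have key : L ≤ 10 ^ 9 * Q := by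
    by_contra hcon
    push Not at hcon
    have hL1 : 1 ≤ L := by nlinarith
    obtain ⟨h0, hh0, hn, hlt⟩ := hLs (L - 1) (by linarith) (by linarith)
    obtain ⟨hperp, hV0, hV1, hVs, hVt, hXV⟩ := hVSQ ι E t Q D L h0 hh0 hL
    have hVn : ∀ k, 0 ≤ D.V h0 k := fun k => by
      unfold Dat.V; positivity
    have hXn : ∀ k, 0 ≤ D.X h0 k := fun k => by
      unfold Dat.X; positivity
    have hRn : ∀ k j, 0 ≤ D.R h0 k j := fun k j => by
      unfold Dat.R
      split_ifs
      · positivity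
      · exact le_refl _
    refine hFRC t Q L (D.V h0) (D.X h0) (fun k => D.R h0 (k + 2) 0) D.ht hQ hcon.le
      (by rw [hV0, hn]; norm_num) ?_ hVs hVt hXn (fun k => hRn _ _) (hDEF ι E t Q D h0 hh0) ?_
    · rw [hV0, hV1, hn]
      linarith
    · intro k hgrow
      have hS := hWBD ι E t Q D h0 hh0 k
      have h1 := hGKB Q L k (D.V h0) (fun k => D.R h0 (k + 2) 0)
        (fun m => ‖D.W h0 (k + 1) m‖ ^ 2 / (Nat.factorial m : ℝ) ^ 2) hQ hcon.le
        (by rw [hV0, hn]; norm_num) hgrow (fun k => hRn _ _) (fun m => by positivity) ?_ ?_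
      · have h2 : ‖D.W h0 (k + 1) 1‖ ^ 2 / (Nat.factorial 1 : ℝ) ^ 2 = D.X h0 k := by
          simp only [Nat.factorial_one, Nat.cast_one, one_pow, div_one]
          exact hS.1
        rw [← h2]
        exact h1
      · intro m hm
        have h3 := hS.2 m hm
        have hf : (0 : ℝ) < (Nat.factorial (m + 1) : ℝ) ^ 2 := by positivity
        rw [div_le_iff₀ hf]
        linarith
      · intro m hm1 hm2
        exact hKDB ι E t Q D L h0 hh0 hL0 hL k m hm1 hm2
  obtain ⟨hperp, hV0, hV1, hVs, hVt, hXV⟩ := hVSQ ι E t Q D L h hh hL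
  have hA := hL h hh
  have hX0 := hXV 0
  have hT : ∑ i, ‖D.T i h‖ ^ 2 = ∑ i, ‖D.A i h‖ ^ 2 + D.X h 0 := by
    have : D.X h 0 = ∑ i, (inner ℝ D.e (D.T i h)) ^ 2 := by
      unfold Dat.X
      refine Finset.sum_congr rfl fun i _ => ?_
      rw [Fintype.sum_unique, D.Pone i h hh]
      rfl
    rw [this, ← Finset.sum_add_distrib]
    refine Finset.sum_congr rfl fun i _ => ?_
    have h1 : D.T i h = D.A i h + inner ℝ D.e (D.T i h) • D.e := by
      rw [Dat.A_apply]; abel
    have h2 : inner ℝ (D.A i h) (inner ℝ D.e (D.T i h) • D.e) = 0 := by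
      rw [inner_smul_right, real_inner_comm _ (D.A i h), D.inner_e_A]; ring
    conv_lhs => rw [h1]
    rw [sq, norm_add_sq_eq_norm_sq_add_norm_sq_of_inner_eq_zero _ _ h2, norm_smul, D.he]
    simp only [mul_one, Real.norm_eq_abs]
    rw [← sq, ← sq, sq_abs]
  rw [hT]
  have h3 : D.X h 0 ≤ ‖h‖ ^ 2 := by rw [← hV0]; exact hX0
  nlinarith [sq_nonneg ‖h‖]

end Pool.Agent.H18.KC
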