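import Pool.Agent.H7.KC.Stmts

/-!
Row GCJ of the board `kc15`: numbers.
-/

set_option autoImplicit false

open Finset

namespace Pool.KC7

open Pool.Agent.H23.KT Pool.Agent.H46.KW Pool.KQ Pool.GT7 Pool.GU7 Pool.HZ7 Pool.IA7

namespace H18

theorem ww_hi (p r B : ℕ) (hr : r ≤ p) (h : r ≤ B) :
    ww p r B = ((p : ℝ) + 3) * ((B : ℝ) + 1 - r) / (((p : ℝ) + 3 - r) * ((B : ℝ) + 1)) := by
  unfold ww gg
  rw [if_neg (by omega)]
  have h1 : (r : ℝ) ≤ p := by exact_mod_cast hr
  have h5 : ((p : ℝ) + 3 - r) ≠ 0 := by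
    have : 0 < ((p : ℝ) + 3 - r) := by linarith only [h1]
    exact this.ne'
  have h6 : ((B : ℝ) + 1) ≠ 0 := by positivity
  push_cast
  field_simp
  ring

theorem ww_lo (p r B : ℕ) (h : B + 1 ≤ r) : ww p r B = 0 := by
  unfold ww gg
  rw [if_pos h, sub_self]

theorem ww_nn (p r B : ℕ) (hr : r ≤ p) : 0 ≤ ww p r B := by
  rcases Nat.lt_or_ge B r with h | h
  · rw [ww_lo p r B h]
  · rw [ww_hi p r B hr h]
    have h1 : (r : ℝ) ≤ p := by exact_mod_cast hr
    have h2 : (r : ℝ) ≤ B := by exact_mod_cast h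
    exact div_nonneg (mul_nonneg (by positivity) (by linarith only [h2]))
      (mul_nonneg (by linarith only [h1]) (by positivity))

theorem cv_a (r k m : ℕ) :
    (r + m).choose (k + 1) ≤ r.choose (k + 1) + m * (r + m).choose k := by
  induction m with
  | zero => simp
  | succ m ih =>
    have h1 : (r + (m + 1)).choose (k + 1) = (r + m).choose k + (r + m).choose (k + 1) := by
      rw [show r + (m + 1) = (r + m) + 1 from rfl, Nat.choose_succ_succ']
    have h2 : (r + m).choose k ≤ (r + (m + 1)).choose k := Nat.choose_le_choose k (by omega)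
    have h3 : m * (r + m).choose k ≤ m * (r + (m + 1)).choose k := Nat.mul_le_mul_left m h2
    have h4 : (m + 1) * (r + (m + 1)).choose k =
      m * (r + (m + 1)).choose k + (r + (m + 1)).choose k := by ring
    omega

theorem cv_b (q k m : ℕ) :
    q.choose (k + 1) + m * q.choose k ≤ (q + m).choose (k + 1) := by
  induction m with
  | zero => simp
  | succ m ih =>
    have h1 : (q + (m + 1)).choose (k + 1) = (q + m).choose k + (q + m).choose (k + 1) := by
      rw [show q + (m + 1) = (q + m) + 1 from rfl, Nat.choose_succ_succ']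
    have h2 : q.choose k ≤ (q + m).choose k := Nat.choose_le_choose k (by omega)
    have h4 : (m + 1) * q.choose k = m * q.choose k + q.choose k := by ring
    omega

theorem cv_c (r k m n : ℕ) :
    (m + n) * (r + m).choose (k + 1) ≤
      n * r.choose (k + 1) + m * (r + m + n).choose (k + 1) := by
  have h1 := Nat.mul_le_mul_left n (cv_a r k m)
  have h2 := Nat.mul_le_mul_left m (cv_b (r + m) k n)
  have h3 : (m + n) * (r + m).choose (k + 1) =
    n * (r + m).choose (k + 1) + m * (r + m).choose (k + 1) := by ring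
  have h4 : n * (r.choose (k + 1) + m * (r + m).choose k) =
    n * r.choose (k + 1) + m * n * (r + m).choose k := by ring
  have h5 : m * ((r + m).choose (k + 1) + n * (r + m).choose k) =
    m * (r + m).choose (k + 1) + m * n * (r + m).choose k := by ring
  omega

/-- convexity, with `q = B + 1`, `s = r - 1` -/
theorem cvx (p w s B : ℕ) (h1 : s ≤ B) (h2 : B ≤ p + 2) :
    ((p : ℝ) + 3 - (s + 1)) * (((B : ℝ) + 1) * (B.choose (w + 1) : ℝ)) ≤
      ((p : ℝ) + 2 - B) * (((s : ℝ) + 1) * (s.choose (w + 1) : ℝ)) +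
        ((B : ℝ) - s) * (((p : ℝ) + 3) * ((p + 2).choose (w + 1) : ℝ)) := by
  obtain ⟨m, rfl⟩ := Nat.exists_eq_add_of_le h1
  obtain ⟨n, hn⟩ := Nat.exists_eq_add_of_le h2
  have cv := cv_c (s + 1) (w + 1) m n
  have i1 : (s + m + 1) * (s + m).choose (w + 1) = (s + 1 + m).choose (w + 1 + 1) * (w + 1 + 1) := by
    rw [show s + 1 + m = s + m + 1 by omega]
    exact Nat.add_one_mul_choose_eq (s + m) (w + 1)
  have i2 : (s + 1) * s.choose (w + 1) = (s + 1).choose (w + 1 + 1) * (w + 1 + 1) :=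
    Nat.add_one_mul_choose_eq s (w + 1)
  have i3 : (p + 2 + 1) * (p + 2).choose (w + 1) =
      (s + 1 + m + n).choose (w + 1 + 1) * (w + 1 + 1) := by
    rw [show s + 1 + m + n = p + 2 + 1 by omega]
    exact Nat.add_one_mul_choose_eq (p + 2) (w + 1)
  have cv2 : (m + n) * ((s + m + 1) * (s + m).choose (w + 1)) ≤
      n * ((s + 1) * s.choose (w + 1)) + m * ((p + 2 + 1) * (p + 2).choose (w + 1)) := by
    rw [i1, i2, i3]
    calc (m + n) * ((s + 1 + m).choose (w + 1 + 1) * (w + 1 + 1))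
        = ((m + n) * (s + 1 + m).choose (w + 1 + 1)) * (w + 1 + 1) := by ring
      _ ≤ (n * (s + 1).choose (w + 1 + 1) + m * (s + 1 + m + n).choose (w + 1 + 1)) *
          (w + 1 + 1) := Nat.mul_le_mul_right _ cv
      _ = _ := by ring
  have cv3 : ((m : ℝ) + n) * (((s : ℝ) + m + 1) * ((s + m).choose (w + 1) : ℝ)) ≤
      n * (((s : ℝ) + 1) * (s.choose (w + 1) : ℝ)) +
        m * (((p : ℝ) + 2 + 1) * ((p + 2).choose (w + 1) : ℝ)) := by exact_mod_cast cv2
  have hn' : (p : ℝ) + 2 = s + m + n := by exact_mod_cast hn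
  have e1 : (p : ℝ) + 3 - (s + 1) = m + n := by linarith only [hn']
  have e2 : (p : ℝ) + 2 - ((s + m : ℕ) : ℝ) = n := by
    push_cast
    linarith only [hn']
  have e3 : ((s + m : ℕ) : ℝ) - s = m := by
    push_cast
    ring
  have e4 : ((s + m : ℕ) : ℝ) + 1 = (s : ℝ) + m + 1 := by
    push_cast
    ring
  have e5 : (p : ℝ) + 3 = (p : ℝ) + 2 + 1 := by ring
  rw [e1, e2, e3, e4, e5]
  exact cv3

theorem ch_ge (p : ℕ) : ∀ w ≤ p, p + 2 ≤ (p + 2).choose (w + 1) := by
  induction p with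
  | zero =>
    intro w hw
    obtain rfl : w = 0 := by omega
    simp
  | succ p ih =>
    intro w hw
    rw [Nat.choose_succ_succ (p + 2) w]
    rcases Nat.lt_or_ge p w with h | h
    · have h1 : w = p + 1 := by omega
      subst h1
      have h3 : (p + 2).choose (p + 1) = p + 2 := Nat.choose_succ_self_right (p + 1)
      have h4 : (p + 2).choose (p + 1).succ = 1 := Nat.choose_self (p + 2)
      rw [h3, h4]
    · have h1 := ih w h
      have h2 : 0 < (p + 2).choose w := Nat.choose_pos (by omega)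
      have h3 : (p + 2).choose (w.succ) = (p + 2).choose (w + 1) := rfl
      omega

end H18

open H18 in
theorem gcj_thm : GCJStmt := by
  intro p w r hP
  obtain ⟨w1, wp, rp, s1, s2, _⟩ := hP
  obtain ⟨k, hk⟩ : ∃ k, p + 3 = r + k := ⟨p + 3 - r, by omega⟩
  have hk' : p + 3 - r = k := by omega
  have hk3 : 3 ≤ k := by omega
  rw [hk'] at s1 s2
  have hk2 : 2 * k ≤ (w + 1) * k := Nat.mul_le_mul_right k (by omega)
  have hr4 : 4 ≤ r := by omega
  have hrR : (4 : ℝ) ≤ r := by exact_mod_cast hr4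
  have hr0 : (0 : ℝ) < r := by linarith only [hrR]
  have hr0' : (r : ℝ) ≠ 0 := hr0.ne'
  have hrp : (r : ℝ) ≤ p := by exact_mod_cast rp
  have hkr : (p : ℝ) + 3 - r = k := by
    have : (p : ℝ) + 3 = r + k := by exact_mod_cast hk
    linarith only [this]
  have hkR : (3 : ℝ) ≤ k := by exact_mod_cast hk3
  have hk0 : (0 : ℝ) < k := by linarith only [hkR]
  have hw0 : (0 : ℝ) ≤ w := Nat.cast_nonneg w
  have hc : p + 2 ≤ (p + 2).choose (w + 1) := ch_ge p w wp
  have hcR : (p : ℝ) + 2 ≤ c1 p w := by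
    unfold c1
    exact_mod_cast hc
  have hc0 : 0 < c1 p w := by linarith only [hcR, hrp, hr0]
  have hpt : pt p w r = ((w : ℝ) + 1) * k / (2 * r) := by
    unfold pt
    rw [hkr]
  have s1R : ((w : ℝ) + 1) * k + 1 ≤ 2 * r := by
    have : (w + 1) * k + 1 ≤ 2 * r := s1
    exact_mod_cast this
  have hp0 : 0 < pt p w r := by
    rw [hpt]
    positivity
  have hp1 : pt p w r < 1 := by
    rw [hpt, div_lt_one (by positivity)]
    linarith only [s1R]
  have hpt2 : 2 * r * pt p w r = ((w : ℝ) + 1) * k := by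
    rw [hpt]
    field_simp
  refine ⟨⟨by omega, rp⟩, hp0, hp1, ?_, ?_, ?_⟩
  · have h1 : 1 ≤ 2 * r * (1 - pt p w r) := by linarith only [hpt2, s1R]
    have h2 : c1 p w * 1 ≤ c1 p w * (2 * r * (1 - pt p w r)) :=
      mul_le_mul_of_nonneg_left h1 hc0.le
    by_contra h3
    rw [not_lt] at h3
    have h4 := mul_le_mul_of_nonneg_left h3 (by positivity : (0 : ℝ) ≤ 2 * r)
    linarith only [h2, h4, hcR, hrp]
  · intro B hB
    have hww := ww_nn p r B rp
    have hcB : (B.choose (w + 1) : ℝ) ≤ c1 p w := by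
      unfold c1
      exact_mod_cast Nat.choose_le_choose (w + 1) hB
    have hx : ((p + 1).choose w : ℝ) + ((p + 1).choose (w + 1) : ℝ) = c1 p w := by
      unfold c1
      have := Nat.choose_succ_succ' (p + 1) w
      exact_mod_cast this.symm
    have hy0 : (0 : ℝ) ≤ ((p + 1).choose (w + 1) : ℝ) := Nat.cast_nonneg _
    rcases Nat.lt_or_ge p B with h | h
    · rcases Nat.lt_or_ge (p + 1) B with h' | h'
      · obtain rfl : B = p + 2 := by omega
        rw [ww_hi p r (p + 2) rp (by omega)]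
        have e1 : ((p : ℝ) + 3) * (((p + 2 : ℕ) : ℝ) + 1 - r) /
            (((p : ℝ) + 3 - r) * (((p + 2 : ℕ) : ℝ) + 1)) = 1 := by
          rw [div_eq_one_iff_eq]
          · push_cast
            ring
          · rw [hkr]
            positivity
        rw [e1]
        push_cast
        have e2 : c1 p w = ((p + 2).choose (w + 1) : ℝ) := rfl
        rw [← e2]
        apply le_of_eq
        ring
      · obtain rfl : B = p + 1 := by omega
        rw [ww_hi p r (p + 1) rp (by omega)]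
        have i1 : ((p : ℝ) + 2) * ((p + 1).choose w : ℝ) = c1 p w * ((w : ℝ) + 1) := by
          unfold c1
          exact_mod_cast Nat.add_one_mul_choose_eq (p + 1) w
        have hp2 : (p : ℝ) + 2 ≠ 0 := by positivity
        have hk0' : (k : ℝ) ≠ 0 := hk0.ne'
        have e1 : pt p w r * c1 p w * (((p : ℝ) + 3) * (((p + 1 : ℕ) : ℝ) + 1 - r) /
            (((p : ℝ) + 3 - r) * (((p + 1 : ℕ) : ℝ) + 1))) =
            (c1 p w * ((w : ℝ) + 1)) * (((p : ℝ) + 3) * ((p : ℝ) + 2 - r) / (2 * r * ((p : ℝ) + 2))) := by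
          rw [hpt, hkr]
          push_cast
          field_simp
          ring
        have e2 : c1 p w * (1 - pt p w r) = c1 p w - (c1 p w * ((w : ℝ) + 1)) * (k / (2 * r)) := by
          rw [hpt]
          ring
        rw [e1, e2, ← i1]
        push_cast
        have e3 : ((p : ℝ) + 2) * ((p + 1).choose w : ℝ) *
            (((p : ℝ) + 3) * ((p : ℝ) + 2 - r) / (2 * r * ((p : ℝ) + 2))) -
            ((p : ℝ) + 2) * ((p + 1).choose w : ℝ) * (k / (2 * r)) =
            - (1 / 2) * ((p + 1).choose w : ℝ) := by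
          rw [← hkr]
          field_simp
          ring
        linarith only [e3, hx]
    · have hB' : (B : ℝ) ≤ p := by exact_mod_cast h
      have h1 : (1 : ℝ) / 2 * ((p + 1).choose w : ℝ) * ((p : ℝ) + 2 - B) ≤
          1 / 2 * c1 p w * ((p : ℝ) + 2 - B) :=
        mul_le_mul_of_nonneg_right (by linarith only [hx, hy0]) (by linarith only [hB'])
      have h2 : 0 ≤ pt p w r * c1 p w * ww p r B :=
        mul_nonneg (mul_nonneg hp0.le hc0.le) hww
      have h3 : 0 ≤ c1 p w * (1 - pt p w r) :=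
        mul_nonneg hc0.le (by linarith only [hp1])
      have h4 : (1 : ℝ) ≤ ((p : ℝ) + 2 - B) * ((p : ℝ) + 1 - B - 1 / 2) := by
        have := mul_le_mul (by linarith only [hB'] : (2 : ℝ) ≤ (p : ℝ) + 2 - B)
          (by linarith only [hB'] : (1 : ℝ) / 2 ≤ (p : ℝ) + 1 - B - 1 / 2) (by norm_num)
          (by linarith only [hB'])
        linarith only [this]
      have h5 := mul_le_mul_of_nonneg_left h4 hc0.le
      linarith only [h1, h2, h3, h5, hcB]
  · intro B hB
    obtain ⟨s, rfl⟩ : ∃ s, r = s + 1 := ⟨r - 1, by omega⟩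
    rw [Nat.add_sub_cancel] at s2
    have s2R : 2 * ((s : ℝ) + 1) * ((w : ℝ) + 3) * (s.choose (w + 1) : ℝ) +
        ((w : ℝ) + 2) * ((w : ℝ) + 1) * k * c1 p w + 1 ≤
        2 * ((s : ℝ) + 1) * ((w : ℝ) + 3) * c1 p w := by
      unfold c1
      have : 2 * (s + 1) * (w + 3) * s.choose (w + 1) +
          (w + 2) * (w + 1) * k * (p + 2).choose (w + 1) + 1 ≤
          2 * (s + 1) * (w + 3) * (p + 2).choose (w + 1) := s2
      exact_mod_cast this
    have hB' : (B : ℝ) ≤ p + 1 := by exact_mod_cast hB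
    have hs1 : ((s + 1 : ℕ) : ℝ) = (s : ℝ) + 1 := by push_cast; ring
    rw [hs1] at hrR hr0 hr0' hrp hkr hpt hpt2
    have hb0 : (0 : ℝ) < (p : ℝ) + 3 := by positivity
    have hb2 : (0 : ℝ) < 2 * ((p : ℝ) + 3) ^ 2 := by positivity
    rcases Nat.lt_or_ge s B with h | h
    · have hsB : (s : ℝ) + 1 ≤ B := by exact_mod_cast h
      rw [ww_hi p (s + 1) B rp h, hs1]
      have cv := cvx p w s B (by omega) (by omega)
      have hq0 : (0 : ℝ) < (B : ℝ) + 1 := by positivity
      have hq0' : (B : ℝ) + 1 ≠ 0 := hq0.ne'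
      have hk0' : (k : ℝ) ≠ 0 := hk0.ne'
      have hkr2 : (p : ℝ) + 3 - (s + 1) = k := hkr
      set c : ℝ := c1 p w with hcdef
      have hcc : ((p + 2).choose (w + 1) : ℝ) = c := rfl
      rw [hcc, hkr2] at cv
      set y : ℝ := (B.choose (w + 1) : ℝ)
      set x : ℝ := (s.choose (w + 1) : ℝ)
      set S : ℝ := c * (1 - pt p w (s + 1)) + pt p w (s + 1) * c *
        (((p : ℝ) + 3) * ((B : ℝ) + 1 - ((s : ℝ) + 1)) / (((p : ℝ) + 3 - ((s : ℝ) + 1)) * ((B : ℝ) + 1)))
        with hS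
      have eS : 2 * ((B : ℝ) + 1) * S = c * (((w : ℝ) + 3) * ((B : ℝ) + 1) -
          ((w : ℝ) + 1) * ((p : ℝ) + 3)) := by
        rw [hS, hpt, hkr2]
        have : (k : ℝ) = (p : ℝ) + 3 - (s + 1) := hkr2.symm
        field_simp
        rw [this]
        ring
      -- the slack, multiplied by `2 (b - r) q`
      have a1 := mul_le_mul_of_nonneg_left cv (by linarith only [hw0] : (0 : ℝ) ≤ (w : ℝ) + 3)
      have a2 := mul_le_mul_of_nonneg_left s2R
        (by linarith only [hB'] : (0 : ℝ) ≤ (p : ℝ) + 2 - B)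
      have a3 : (1 : ℝ) ≤ 2 * (k * ((B : ℝ) + 1)) * (c + ((w : ℝ) + 2) * S - ((w : ℝ) + 3) * y) := by
        have e1 : 2 * (k * ((B : ℝ) + 1)) * (c + ((w : ℝ) + 2) * S - ((w : ℝ) + 3) * y) =
            2 * k * ((B : ℝ) + 1) * c + ((w : ℝ) + 2) * k * (2 * ((B : ℝ) + 1) * S) -
              2 * (((w : ℝ) + 3) * (k * (((B : ℝ) + 1) * y))) := by ring
        rw [e1, eS]
        have e2 : 2 * k * ((B : ℝ) + 1) * c + ((w : ℝ) + 2) * k *
            (c * (((w : ℝ) + 3) * ((B : ℝ) + 1) - ((w : ℝ) + 1) * ((p : ℝ) + 3))) -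
            2 * (((w : ℝ) + 3) * (((B : ℝ) - s) * (((p : ℝ) + 3) * c))) -
            ((p : ℝ) + 2 - B) * (2 * ((s : ℝ) + 1) * ((w : ℝ) + 3) * c -
              ((w : ℝ) + 2) * ((w : ℝ) + 1) * k * c) = 0 := by
          rw [← hkr2]
          ring
        linarith only [a1, a2, e2, hB']
      have a4 : 0 < c + ((w : ℝ) + 2) * S - ((w : ℝ) + 3) * y := by
        by_contra h0
        rw [not_lt] at h0
        have := mul_nonneg_of_nonpos_of_nonpos h0 (by
          have : 0 < 2 * (k * ((B : ℝ) + 1)) := by positivity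
          linarith only [this] : -(2 * (k * ((B : ℝ) + 1))) ≤ 0)
        linarith only [this, a3]
      have a5 : 2 * (k * ((B : ℝ) + 1)) ≤ 2 * ((p : ℝ) + 3) ^ 2 := by
        have := mul_le_mul (by linarith only [hkr2, hr0] : (k : ℝ) ≤ (p : ℝ) + 3)
          (by linarith only [hB'] : (B : ℝ) + 1 ≤ (p : ℝ) + 3) hq0.le hb0.le
        rw [sq]
        linarith only [this]
      have a6 := mul_le_mul_of_nonneg_right a5 a4.le
      have a7 : 1 / (2 * ((p : ℝ) + 3) ^ 2) ≤ c + ((w : ℝ) + 2) * S - ((w : ℝ) + 3) * y := by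
        rw [div_le_iff₀ hb2]
        linarith only [a3, a6]
      linarith only [a7]
    · rw [ww_lo p (s + 1) B (by omega), mul_zero, add_zero]
      have hcB : (B.choose (w + 1) : ℝ) ≤ (s.choose (w + 1) : ℝ) := by
        exact_mod_cast Nat.choose_le_choose (w + 1) h
      have e1 : 2 * ((s : ℝ) + 1) * (c1 p w + ((w : ℝ) + 2) * (c1 p w * (1 - pt p w (s + 1)))) =
          2 * ((s : ℝ) + 1) * ((w : ℝ) + 3) * c1 p w -
            ((w : ℝ) + 2) * c1 p w * (2 * ((s : ℝ) + 1) * pt p w (s + 1)) := by ring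
      rw [hpt2] at e1
      have a1 := mul_le_mul_of_nonneg_left hcB
        (by positivity : (0 : ℝ) ≤ 2 * ((s : ℝ) + 1) * ((w : ℝ) + 3))
      have a3 : (1 : ℝ) ≤ 2 * ((s : ℝ) + 1) * (c1 p w + ((w : ℝ) + 2) *
          (c1 p w * (1 - pt p w (s + 1))) - ((w : ℝ) + 3) * (B.choose (w + 1) : ℝ)) := by
        rw [mul_sub, e1]
        linarith only [a1, s2R]
      have a4 : 1 / (2 * ((s : ℝ) + 1)) ≤ c1 p w + ((w : ℝ) + 2) *
          (c1 p w * (1 - pt p w (s + 1))) - ((w : ℝ) + 3) * (B.choose (w + 1) : ℝ) := by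
        rw [div_le_iff₀ (by positivity)]
        linarith only [a3]
      have a5 : 1 / (2 * ((p : ℝ) + 3) ^ 2) ≤ 1 / (2 * ((s : ℝ) + 1)) := by
        apply one_div_le_one_div_of_le (by positivity)
        have h1 : ((p : ℝ) + 3) * 1 ≤ ((p : ℝ) + 3) * ((p : ℝ) + 3) :=
          mul_le_mul_of_nonneg_left (by linarith only [hrp, hr0]) hb0.le
        rw [sq]
        linarith only [h1, hrp]
      linarith only [a4, a5]

end Pool.KC7
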