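import Pool.Agent.H18.KC.Defs

/-!
# Part C of the KLS proof, abstract form: statements of the modules (board `kc`)

Everything here is pure linear algebra / finite sums.  `MAINStmt` is the conclusion.
-/

set_option autoImplicit false

open Finset

namespace Pool.Agent.H18.KC

/-- MAIN: the bound for the operator `T`, universal constant -/
def MAINStmt : Prop := ∀ (ι E : Type) [Fintype ι] [NormedAddCommGroup E] [InnerProductSpace ℝ E]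
  (t Q : ℝ) (D : Dat ι E t Q) (h : E), inner ℝ D.e h = 0 →
  ∑ i, ‖D.T i h‖ ^ 2 ≤ (10 ^ 9 * Q + 1) * ‖h‖ ^ 2

/-! ## Isometric representations of the symmetric group -/

section rep

/-- UIN: invariance of the raised vector -/
def UINStmt : Prop := ∀ (α V : Type) [DecidableEq α] [NormedAddCommGroup V]
  [InnerProductSpace ℝ V] (ρ : Equiv.Perm α →* (V →ₗ[ℝ] V)) (x : ℕ → α) (p q : ℕ) (v : V),
  (∀ i j, i < p + q → j < p + q → x i = x j → i = j) → 1 ≤ q →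
  Inv ρ x 0 p v → Inv ρ x p (p + q) v →
  Inv ρ x 0 (p + 1) (Up ρ x p v) ∧ Inv ρ x (p + 1) (p + q) (Up ρ x p v)

/-- PO1: first step of the polarisation inequality -/
def PO1Stmt : Prop := ∀ (α V : Type) [DecidableEq α] [NormedAddCommGroup V]
  [InnerProductSpace ℝ V] (ρ : Equiv.Perm α →* (V →ₗ[ℝ] V)) (x : ℕ → α) (p q : ℕ) (v : V),
  (∀ σ v, ‖ρ σ v‖ = ‖v‖) →
  (∀ i j, i < p + q → j < p + q → x i = x j → i = j) → 1 ≤ p → 1 ≤ q →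
  Inv ρ x 0 p v → Inv ρ x p (p + q) v →
  ((p : ℝ) + 1) * ((q : ℝ) - p) * ‖v‖ ^ 2 ≤ q * ‖Up ρ x p v‖ ^ 2

/-- PO2: the next steps of the polarisation inequality: `u ∈ (p, q + 1)`, `v = Up u`,
`w = Up v`; here `v` has type `(p + 1, q)` -/
def PO2Stmt : Prop := ∀ (α V : Type) [DecidableEq α] [NormedAddCommGroup V]
  [InnerProductSpace ℝ V] (ρ : Equiv.Perm α →* (V →ₗ[ℝ] V)) (x : ℕ → α) (p q : ℕ) (u : V),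
  (∀ σ v, ‖ρ σ v‖ = ‖v‖) →
  (∀ i j, i < p + q + 1 → j < p + q + 1 → x i = x j → i = j) → 1 ≤ p → 1 ≤ q →
  Inv ρ x 0 p u → Inv ρ x p (p + q + 1) u →
  ((p : ℝ) + 2) * (((q : ℝ) - (p + 1)) * (p + 1) * ‖Up ρ x p u‖ ^ 2 * ‖u‖ ^ 2 +
      (q + 1) * ‖Up ρ x p u‖ ^ 4) ≤
    q * (p + 1) * ‖Up ρ x (p + 1) (Up ρ x p u)‖ ^ 2 * ‖u‖ ^ 2

/-- POL: the polarisation inequality -/
def POLStmt : Prop := ∀ (α V : Type) [DecidableEq α] [NormedAddCommGroup V]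
  [InnerProductSpace ℝ V] (ρ : Equiv.Perm α →* (V →ₗ[ℝ] V)) (x : ℕ → α) (m : ℕ) (v : V),
  (∀ σ v, ‖ρ σ v‖ = ‖v‖) →
  (∀ i j, i < 3 * m → j < 3 * m → x i = x j → i = j) → 1 ≤ m →
  Inv ρ x 0 m v → Inv ρ x m (3 * m) v →
  (Nat.factorial m : ℝ) * ‖v‖ ≤ ‖UpN ρ x m m v‖

/-- SYM: symmetrisation over the positions in `[a, a + n)` -/
def SYMStmt : Prop := ∀ (α V : Type) [DecidableEq α] [NormedAddCommGroup V]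
  [InnerProductSpace ℝ V] (ρ : Equiv.Perm α →* (V →ₗ[ℝ] V)) (x : ℕ → α) (a n : ℕ) (v : V),
  (∀ σ v, ‖ρ σ v‖ = ‖v‖) →
  (∀ i j, i < a + n → j < a + n → x i = x j → i = j) → 1 ≤ n →
  ∃ v' : V, Inv ρ x a (a + n) v' ∧
    (∀ σ : Equiv.Perm α, (∀ j, a ≤ j → j < a + n → σ (x j) = x j) → ρ σ v = v → ρ σ v' = v') ∧
    ‖v - v'‖ ≤ 3 ^ n * ∑ j ∈ Ico a (a + n - 1), ‖v - ρ (Equiv.swap (x j) (x (j + 1))) v‖

/-- UPB: linearity and upper bound for the iterated raising operator -/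
def UPBStmt : Prop := ∀ (α V : Type) [DecidableEq α] [NormedAddCommGroup V]
  [InnerProductSpace ℝ V] (ρ : Equiv.Perm α →* (V →ₗ[ℝ] V)) (x : ℕ → α) (m k : ℕ) (v w : V),
  (∀ σ v, ‖ρ σ v‖ = ‖v‖) →
  UpN ρ x m k (v - w) = UpN ρ x m k v - UpN ρ x m k w ∧
  (Nat.factorial m : ℝ) * ‖UpN ρ x m k v‖ ≤ Nat.factorial (m + k) * ‖v‖

/-- DBL: doubling for vectors which are only nearly symmetric -/
def DBLStmt : Prop := ∀ (α V : Type) [DecidableEq α] [NormedAddCommGroup V]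
  [InnerProductSpace ℝ V] (ρ : Equiv.Perm α →* (V →ₗ[ℝ] V)) (x : ℕ → α) (m : ℕ) (v : V),
  (∀ σ v, ‖ρ σ v‖ = ‖v‖) →
  (∀ i j, i < 3 * m → j < 3 * m → x i = x j → i = j) → 1 ≤ m →
  Inv ρ x 0 m v →
  ‖v‖ ^ 2 ≤ 2 / (Nat.factorial m : ℝ) ^ 2 * ‖UpN ρ x m m v‖ ^ 2 +
    (10 ^ 5) ^ m * ∑ j ∈ Ico m (3 * m - 1), ‖v - ρ (Equiv.swap (x j) (x (j + 1))) v‖ ^ 2

end rep

/-! ## The sequence `h_k` -/

section seq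

/-- BST: the best constant -/
def BSTStmt : Prop := ∀ (ι E : Type) [Fintype ι] [NormedAddCommGroup E] [InnerProductSpace ℝ E]
  (t Q : ℝ) (D : Dat ι E t Q), ∃ L : ℝ, 0 ≤ L ∧
  (∀ h, inner ℝ D.e h = 0 → ∑ i, ‖D.A i h‖ ^ 2 ≤ L * ‖h‖ ^ 2) ∧
  (∀ L' : ℝ, 0 ≤ L' → L' < L →
    ∃ h, inner ℝ D.e h = 0 ∧ ‖h‖ = 1 ∧ L' < ∑ i, ‖D.A i h‖ ^ 2)

/-- VSQ: elementary bounds for the sequence -/
def VSQStmt : Prop := ∀ (ι E : Type) [Fintype ι] [NormedAddCommGroup E] [InnerProductSpace ℝ E]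
  (t Q : ℝ) (D : Dat ι E t Q) (L : ℝ) (h0 : E), inner ℝ D.e h0 = 0 →
  (∀ h, inner ℝ D.e h = 0 → ∑ i, ‖D.A i h‖ ^ 2 ≤ L * ‖h‖ ^ 2) →
  (∀ k I, inner ℝ D.e (D.hs h0 k I) = 0) ∧
  D.V h0 0 = ‖h0‖ ^ 2 ∧ D.V h0 1 = ∑ i, ‖D.A i h0‖ ^ 2 ∧
  (∀ k, D.V h0 (k + 1) ≤ L * D.V h0 k) ∧
  (∀ k, t * D.V h0 (k + 1) ≤ D.V h0 k) ∧
  (∀ k, D.X h0 k ≤ D.V h0 k)

/-- DEF: the defect identity -/
def DEFStmt : Prop := ∀ (ι E : Type) [Fintype ι] [NormedAddCommGroup E] [InnerProductSpace ℝ E]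
  (t Q : ℝ) (D : Dat ι E t Q) (h0 : E), inner ℝ D.e h0 = 0 → ∀ k : ℕ,
  D.R h0 (k + 2) 0 * (D.V h0 k - t * D.V h0 (k + 1)) ≤
    4 * ((D.V h0 (k + 2) + D.X h0 (k + 1)) * (D.V h0 k - t * D.V h0 (k + 1)) -
      D.V h0 (k + 1) ^ 2)

/-- NSY: older exchanges -/
def NSYStmt : Prop := ∀ (ι E : Type) [Fintype ι] [NormedAddCommGroup E] [InnerProductSpace ℝ E]
  (t Q : ℝ) (D : Dat ι E t Q) (L : ℝ) (h0 : E), inner ℝ D.e h0 = 0 → 0 ≤ L →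
  (∀ h, inner ℝ D.e h = 0 → ∑ i, ‖D.A i h‖ ^ 2 ≤ L * ‖h‖ ^ 2) →
  ∀ k j : ℕ, j + 1 < k → D.R h0 k j ≤ L ^ j * D.R h0 (k - j) 0

/-- WRL: the exact relation -/
def WRLStmt : Prop := ∀ (ι E : Type) [Fintype ι] [NormedAddCommGroup E] [InnerProductSpace ℝ E]
  (t Q : ℝ) (D : Dat ι E t Q) (h0 : E), inner ℝ D.e h0 = 0 → ∀ k m : ℕ, 1 ≤ m → m ≤ k →
  D.W h0 (k + 1) (m + 1) = Up (rho ι (k + 1)) (pos k) m (D.W h0 (k + 1) m)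

/-- WIN: symmetry in the positions of the Appell polynomial -/
def WINStmt : Prop := ∀ (ι E : Type) [Fintype ι] [NormedAddCommGroup E] [InnerProductSpace ℝ E]
  (t Q : ℝ) (D : Dat ι E t Q) (h0 : E) (k m : ℕ), m ≤ k + 1 →
  Inv (rho ι (k + 1)) (pos k) 0 m (D.W h0 (k + 1) m)

/-- WBD: bounds for the norm -/
def WBDStmt : Prop := ∀ (ι E : Type) [Fintype ι] [NormedAddCommGroup E] [InnerProductSpace ℝ E]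
  (t Q : ℝ) (D : Dat ι E t Q) (h0 : E), inner ℝ D.e h0 = 0 → ∀ k : ℕ,
  ‖D.W h0 (k + 1) 1‖ ^ 2 = D.X h0 k ∧
  ∀ m : ℕ, m ≤ k → ‖D.W h0 (k + 1) (m + 1)‖ ^ 2 ≤
    (Nat.factorial (m + 1) : ℝ) ^ 2 * Q ^ m * D.V h0 (k - m)

/-- WSY: exchange of positions of the second kind -/
def WSYStmt : Prop := ∀ (ι E : Type) [Fintype ι] [NormedAddCommGroup E] [InnerProductSpace ℝ E]
  (t Q : ℝ) (D : Dat ι E t Q) (h0 : E), inner ℝ D.e h0 = 0 → ∀ k m j : ℕ, m + 1 ≤ j → j + 1 ≤ k →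
  ‖D.W h0 (k + 1) (m + 1) -
      rho ι (k + 1) (Equiv.swap (pos k j) (pos k (j + 1))) (D.W h0 (k + 1) (m + 1))‖ ^ 2 ≤
    (Nat.factorial (m + 1) : ℝ) ^ 2 * Q ^ m * D.R h0 (k - m) (j - (m + 1))

/-- KDB: the doubling inequality for the tensors `P_m h` -/
def KDBStmt : Prop := ∀ (ι E : Type) [Fintype ι] [NormedAddCommGroup E] [InnerProductSpace ℝ E]
  (t Q : ℝ) (D : Dat ι E t Q) (L : ℝ) (h0 : E), inner ℝ D.e h0 = 0 → 0 ≤ L →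
  (∀ h, inner ℝ D.e h = 0 → ∑ i, ‖D.A i h‖ ^ 2 ≤ L * ‖h‖ ^ 2) →
  ∀ k m : ℕ, 1 ≤ m → 3 * m ≤ k + 1 →
  ‖D.W h0 (k + 1) m‖ ^ 2 / (Nat.factorial m : ℝ) ^ 2 ≤
    2 * 16 ^ m * (‖D.W h0 (k + 1) (2 * m)‖ ^ 2 / (Nat.factorial (2 * m) : ℝ) ^ 2) +
    (10 ^ 5) ^ m * Q ^ (m - 1) *
      ∑ j ∈ Ico m (3 * m - 1), L ^ (j - m) * D.R h0 (k - 1 - j + 2) 0

end seq

/-! ## Real sequences -/

section real

/-- GKB: the bound for `G_k = X_k / V_k` from the doubling inequality -/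
def GKBStmt : Prop := ∀ (Q L : ℝ) (k : ℕ) (V R S : ℕ → ℝ), 1 ≤ Q → 10 ^ 9 * Q ≤ L →
  0 < V 0 → (∀ j, j < k → 9 / 10 * L * V j ≤ V (j + 1)) → (∀ j, 0 ≤ R j) → (∀ m, 0 ≤ S m) →
  (∀ m, m ≤ k → S (m + 1) ≤ Q ^ m * V (k - m)) →
  (∀ m, 1 ≤ m → 3 * m ≤ k + 1 → S m ≤ 2 * 16 ^ m * S (2 * m) +
    (10 ^ 5) ^ m * Q ^ (m - 1) * ∑ j ∈ Ico m (3 * m - 1), L ^ (j - m) * R (k - 1 - j)) →
  S 1 ≤ (2 * (1 / 2) ^ k +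
    10 ^ 6 * ∑ j ∈ Ico 1 k, (1 / 2) ^ j * (R (k - 1 - j) / (L ^ 2 * V (k - 1 - j)))) * V k

/-- FRC: the final contradiction -/
def FRCStmt : Prop := ∀ (t Q L : ℝ) (V X R : ℕ → ℝ), 0 < t → 1 ≤ Q → 10 ^ 9 * Q ≤ L →
  0 < V 0 → (L - 1) * V 0 ≤ V 1 → (∀ k, V (k + 1) ≤ L * V k) →
  (∀ k, t * V (k + 1) ≤ V k) → (∀ k, 0 ≤ X k) → (∀ k, 0 ≤ R k) →
  (∀ k, R k * (V k - t * V (k + 1)) ≤
    4 * ((V (k + 2) + X (k + 1)) * (V k - t * V (k + 1)) - V (k + 1) ^ 2)) →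
  (∀ k, (∀ j, j < k → 9 / 10 * L * V j ≤ V (j + 1)) → X k ≤ (2 * (1 / 2) ^ k +
    10 ^ 6 * ∑ j ∈ Ico 1 k, (1 / 2) ^ j * (R (k - 1 - j) / (L ^ 2 * V (k - 1 - j)))) * V k) →
  False

end real

end Pool.Agent.H18.KC
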